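import Mathlib
import Pool.Agent.V117.Pencil

/-! MP_3c4fb9_al: commuting coefficients after left multiplication for singular pencils. -/

namespace Pool.Agent.Results.MP_3c4fb9_al.Commuting

open Matrix Pool.Agent.V117 Pool.Agent.V117.Pencil

/-- Kronecker data: `n j` copies of the block `L_{δ j}^T` (`j = 0, ..., k`, `δ 0 = 0`), `m j` copies
of the block `L_{ε j}` (`j = 0, ..., l`, `ε 0 = 0`), Jordan blocks `J_{γ a}(μ a) + λ I` and blocks
`I + λ J_{β b}(0)`. -/
structure KData where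
  k : ℕ
  δ : Fin (k + 1) → ℕ
  n : Fin (k + 1) → ℕ
  l : ℕ
  ε : Fin (l + 1) → ℕ
  m : Fin (l + 1) → ℕ
  p : ℕ
  γ : Fin p → ℕ
  μ : Fin p → ℂ
  q : ℕ
  β : Fin q → ℕ

namespace KData

variable (D : KData)

/-- the blocks `L^T`, with their copies -/
abbrev TBlocks := Σ j : Fin (D.k + 1), Fin (D.n j)

/-- the blocks `L`, with their copies -/
abbrev LBlocks := Σ j : Fin (D.l + 1), Fin (D.m j)

/-- indices of the regular part -/
abbrev Reg := (Σ a : Fin D.p, Fin (D.γ a)) ⊕ (Σ b : Fin D.q, Fin (D.β b))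

/-- Row indices: `δ + 1` rows for a block `L_δ^T`, `ε` rows for a block `L_ε`. -/
abbrev Rows := ((Σ s : D.TBlocks, Fin (D.δ s.1 + 1)) ⊕ (Σ s : D.LBlocks, Fin (D.ε s.1))) ⊕ D.Reg

/-- Column indices: `δ` columns for a block `L_δ^T`, `ε + 1` columns for a block `L_ε`. -/
abbrev Cols := ((Σ s : D.TBlocks, Fin (D.δ s.1)) ⊕ (Σ s : D.LBlocks, Fin (D.ε s.1 + 1))) ⊕ D.Reg

/-- The block diagonal sum of the `J_{γ a}(μ a)`. -/
noncomputable def jordan : Matrix (Σ a : Fin D.p, Fin (D.γ a)) (Σ a : Fin D.p, Fin (D.γ a)) ℂ :=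
  Matrix.of fun x y => if x.1 = y.1 ∧ (x.2 : ℕ) = y.2 then D.μ x.1 else
    if x.1 = y.1 ∧ (x.2 : ℕ) + 1 = y.2 then 1 else 0

/-- The block diagonal sum of the `J_{β b}(0)`. -/
noncomputable def nilp : Matrix (Σ b : Fin D.q, Fin (D.β b)) (Σ b : Fin D.q, Fin (D.β b)) ℂ :=
  Matrix.of fun x y => if x.1 = y.1 ∧ (x.2 : ℕ) + 1 = y.2 then 1 else 0

/-- Constant coefficient of the canonical form: `1` in position `(i + 1, i)` of the blocks `L^T`,
`1` in position `(i, i + 1)` of the blocks `L`, `J_γ(μ)` and `I`. -/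
noncomputable def A : Matrix D.Rows D.Cols ℂ :=
  fromBlocks (fromBlocks (AT ℂ fun s : D.TBlocks => D.δ s.1) 0 0
    (AT ℂ fun s : D.LBlocks => D.ε s.1)ᵀ) 0 0 (fromBlocks D.jordan 0 0 1)

/-- Coefficient of `λ` in the canonical form: `1` in position `(i, i)` of the blocks `L^T` and `L`,
`I` and `J_β(0)`. -/
noncomputable def B : Matrix D.Rows D.Cols ℂ :=
  fromBlocks (fromBlocks (BT ℂ fun s : D.TBlocks => D.δ s.1) 0 0
    (BT ℂ fun s : D.LBlocks => D.ε s.1)ᵀ) 0 0 (fromBlocks 1 0 0 D.nilp)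

end KData

/-- `A + λ B` is strictly equivalent to the canonical form with data `D` (rows and columns of the
canonical form being numbered in some order). -/
def HasKCF {N : ℕ} (A B : Matrix (Fin N) (Fin N) ℂ) (D : KData) : Prop :=
  ∃ (S T : Matrix (Fin N) (Fin N) ℂ) (eR : Fin N ≃ D.Rows) (eC : Fin N ≃ D.Cols),
    IsUnit S.det ∧ IsUnit T.det ∧ S * A * T = D.A.submatrix eR eC ∧
      S * B * T = D.B.submatrix eR eC

lemma cond {k : ℕ} (δ n : Fin (k + 1) → ℕ) (hδ : StrictMono δ)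
    (h : ∀ i, δ i * n i ≤ ∑ j ∈ Finset.Iio i, n j) (s : Σ j : Fin (k + 1), Fin (n j)) :
    ∑ s' ∈ Finset.univ.filter (fun s' : Σ j : Fin (k + 1), Fin (n j) => δ s'.1 ≤ δ s.1), δ s'.1 ≤
      ∑ r ∈ Finset.univ.filter (fun r : Σ j : Fin (k + 1), Fin (n j) => δ r.1 < δ s.1),
        (δ r.1 + 1) := by
  obtain ⟨i, c⟩ := s
  rw [Finset.sum_filter, Finset.sum_filter, Fintype.sum_sigma, Fintype.sum_sigma]
  simp only [hδ.le_iff_le, hδ.lt_iff_lt, Finset.sum_const, Finset.card_univ, Fintype.card_fin,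
    smul_eq_mul]
  have e1 : ∑ j, n j * (if j ≤ i then δ j else 0) =
      δ i * n i + ∑ j, n j * (if j < i then δ j else 0) := by
    rw [← Finset.add_sum_erase Finset.univ (fun j => n j * (if j ≤ i then δ j else 0))
      (Finset.mem_univ i), ← Finset.add_sum_erase Finset.univ
      (fun j => n j * (if j < i then δ j else 0)) (Finset.mem_univ i)]
    simp only [le_refl, if_true, lt_irrefl, if_false, mul_zero, zero_add]
    rw [mul_comm (n i)]
    congr 1
    refine Finset.sum_congr rfl fun j hj => ?_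
    have : j ≤ i ↔ j < i := ⟨fun h => lt_of_le_of_ne h (Finset.ne_of_mem_erase hj), le_of_lt⟩
    simp only [this]
  have e2 : ∑ j, n j * (if j < i then δ j + 1 else 0) =
      ∑ j ∈ Finset.Iio i, n j + ∑ j, n j * (if j < i then δ j else 0) := by
    have : Finset.Iio i = Finset.univ.filter (fun j => j < i) := by
      ext j
      simp
    rw [this, Finset.sum_filter, ← Finset.sum_add_distrib]
    refine Finset.sum_congr rfl fun j _ => ?_
    by_cases hj : j < i
    · simp only [hj, if_true]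
      ring
    · simp [hj]
  rw [e1, e2]
  exact Nat.add_le_add_right (h i) _

lemma card_succ {σ : Type*} [Fintype σ] (d : σ → ℕ) : Fintype.card (Σ s, Fin (d s + 1)) =
    Fintype.card (Σ s, Fin (d s)) + Fintype.card σ := by
  rw [Fintype.card_sigma, Fintype.card_sigma]
  simp only [Fintype.card_fin, Finset.sum_add_distrib, Finset.sum_const, Finset.card_univ,
    smul_eq_mul, mul_one]

/-- If `A + λ B` has the Kronecker data `D` with `0 = δ_0 < δ_1 < ... < δ_k`,
`0 = ε_0 < ε_1 < ... < ε_l`, `δ_i n_i ≤ n_0 + ... + n_{i-1}` and `ε_j m_j ≤ m_0 + ... + m_{j-1}`, then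
`E A` and `E B` commute for some invertible `E`. -/
theorem result {N : ℕ} (A B : Matrix (Fin N) (Fin N) ℂ) (D : KData) (hD : HasKCF A B D)
    (hδ0 : D.δ 0 = 0) (hδ : StrictMono D.δ) (hε0 : D.ε 0 = 0) (hε : StrictMono D.ε)
    (hn : ∀ i, i ≠ 0 → D.δ i * D.n i ≤ ∑ j ∈ Finset.Iio i, D.n j)
    (hm : ∀ j, j ≠ 0 → D.ε j * D.m j ≤ ∑ i ∈ Finset.Iio j, D.m i) :
    ∃ E : Matrix (Fin N) (Fin N) ℂ, IsUnit E.det ∧ Commute (E * A) (E * B) := by
  classical
  obtain ⟨S, T, eR, eC, hS, hT, hA, hB⟩ := hD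
  have hn' : ∀ i, D.δ i * D.n i ≤ ∑ j ∈ Finset.Iio i, D.n j := by
    intro i
    by_cases h : i = 0
    · rw [h, hδ0, zero_mul]
      exact Nat.zero_le _
    · exact hn i h
  have hm' : ∀ i, D.ε i * D.m i ≤ ∑ j ∈ Finset.Iio i, D.m j := by
    intro i
    by_cases h : i = 0
    · rw [h, hε0, zero_mul]
      exact Nat.zero_le _
    · exact hm i h
  have hcard : Fintype.card D.TBlocks = Fintype.card D.LBlocks := by
    have h1 : Fintype.card D.Rows = Fintype.card D.Cols := by
      rw [← Fintype.card_congr eR, ← Fintype.card_congr eC]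
    have e1 := card_succ (fun s : D.TBlocks => D.δ s.1)
    have e2 := card_succ (fun s : D.LBlocks => D.ε s.1)
    have e3 : Fintype.card D.Rows = Fintype.card (Σ s : D.TBlocks, Fin (D.δ s.1 + 1)) +
        Fintype.card (Σ s : D.LBlocks, Fin (D.ε s.1)) + Fintype.card D.Reg := by
      rw [Fintype.card_sum, Fintype.card_sum]
    have e4 : Fintype.card D.Cols = Fintype.card (Σ s : D.TBlocks, Fin (D.δ s.1)) +
        Fintype.card (Σ s : D.LBlocks, Fin (D.ε s.1 + 1)) + Fintype.card D.Reg := by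
      rw [Fintype.card_sum, Fintype.card_sum]
    omega
  obtain ⟨E0, G0, h1, h2, h3⟩ := core (k := ℂ) (fun s : D.TBlocks => D.δ s.1)
    (fun s : D.LBlocks => D.ε s.1) hcard (cond D.δ D.n hδ hn') (cond D.ε D.m hε hm')
  let F : Matrix D.Cols D.Rows ℂ := fromBlocks E0 0 0 1
  let G : Matrix D.Rows D.Cols ℂ := fromBlocks G0 0 0 1
  have hFG : F * G = 1 := by
    simp only [F, G, fromBlocks_multiply, Matrix.zero_mul, Matrix.mul_zero, add_zero, zero_add,
      Matrix.one_mul]
    rw [h1, fromBlocks_one]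
  have hcomm : D.A * F * D.B = D.B * F * D.A := by
    simp only [KData.A, KData.B, F, fromBlocks_multiply, Matrix.zero_mul, Matrix.mul_zero,
      add_zero, zero_add, Matrix.mul_one, Matrix.one_mul]
    simp only [PA, PB] at h3
    rw [h3]
  let F' : Matrix (Fin N) (Fin N) ℂ := F.submatrix eC eR
  let G' : Matrix (Fin N) (Fin N) ℂ := G.submatrix eR eC
  have hFG' : F' * G' = 1 := by
    show F.submatrix eC eR * G.submatrix eR eC = 1
    rw [submatrix_mul_equiv, hFG, submatrix_one_equiv]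
  have hcomm' : S * A * T * F' * (S * B * T) = S * B * T * F' * (S * A * T) := by
    rw [hA, hB]
    show D.A.submatrix eR eC * F.submatrix eC eR * D.B.submatrix eR eC =
      D.B.submatrix eR eC * F.submatrix eC eR * D.A.submatrix eR eC
    rw [submatrix_mul_equiv, submatrix_mul_equiv, submatrix_mul_equiv, submatrix_mul_equiv, hcomm]
  refine ⟨T * F' * S, ?_, ?_⟩
  · have hF' : IsUnit F'.det := by
      have := congrArg det hFG'
      rw [det_mul, det_one] at this
      exact IsUnit.of_mul_eq_one _ this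
    rw [det_mul, det_mul]
    exact (hT.mul hF').mul hS
  · have hTT : T * T⁻¹ = 1 := mul_nonsing_inv _ hT
    have key : ∀ P Q : Matrix (Fin N) (Fin N) ℂ, T * F' * S * P * (T * F' * S * Q) =
        T * F' * (S * P * T * F' * (S * Q * T)) * T⁻¹ := by
      intro P Q
      have : T * F' * (S * P * T * F' * (S * Q * T)) * T⁻¹ =
          T * F' * S * P * (T * F' * S * Q) * (T * T⁻¹) := by
        simp only [Matrix.mul_assoc]
      rw [this, hTT, Matrix.mul_one]
    show T * F' * S * A * (T * F' * S * B) = T * F' * S * B * (T * F' * S * A)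
    rw [key A B, key B A, hcomm']

end Pool.Agent.Results.MP_3c4fb9_al.Commuting
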